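import Pool.Agent.L7h34.BO.Stm

set_option autoImplicit false

/-!
# Project BO, parts FIN1 and FIN2: counting the exceptional primes
-/

namespace Pool.Agent.L7h40.BO

open Finset Polynomial Pool.Agent.H319B Pool.Agent.L7h58.BP Pool.Agent.L7h34.BO

/-- constants are smaller than `x / (log x)^2` -/
theorem const_small (A : ℝ) (hA : 0 < A) :
    ∀ᶠ x : ℕ in Filter.atTop, A ≤ x / (Real.log x) ^ 2 := by
  have h1 : (fun x : ℝ => (Real.log x) ^ 2) =o[Filter.atTop] (fun x : ℝ => x) := by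
    simpa using (isLittleO_log_rpow_rpow_atTop (s := 1) 2 (by norm_num)).congr'
      (by filter_upwards with x; norm_cast) (by filter_upwards with x; simp)
  have h2 := (tendsto_natCast_atTop_atTop (R := ℝ)).eventually
    (h1.bound (show (0 : ℝ) < A⁻¹ by positivity))
  filter_upwards [h2, Filter.eventually_ge_atTop 10] with x hx hx10
  rw [Real.norm_of_nonneg (by positivity), Real.norm_of_nonneg (Nat.cast_nonneg x)] at hx
  have hx2 : (10 : ℝ) ≤ x := by exact_mod_cast hx10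
  have hlx : 0 < Real.log x := Real.log_pos (by linarith)
  rw [le_div_iff₀ (by positivity)]
  calc A * (Real.log x) ^ 2 ≤ A * (A⁻¹ * x) := mul_le_mul_of_nonneg_left hx hA.le
    _ = x := by rw [← mul_assoc, mul_inv_cancel₀ hA.ne', one_mul]

/-- the general counting lemma -/
theorem count_gen (c : ℝ) (hc : 0 < c) (q0 : ℕ) (P E : ℕ → Prop)
    (hE : ∀ᶠ x : ℕ in Filter.atTop, ({q : ℕ | q ≤ x ∧ E q}.ncard : ℝ) ≤ x / (Real.log x) ^ 2)
    (hP : ∀ q : ℕ, q0 ≤ q → q.Prime →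
      c * Real.sqrt (((q : ℝ) + 2) / Real.log ((q : ℝ) + 2)) < (orderOf (2 : ZMod q) : ℝ) →
      ¬ E q → P q) :
    ∃ K : ℝ, 0 < K ∧ ∃ x₀ : ℕ, ∀ x : ℕ, x₀ ≤ x →
    ({q : ℕ | q ≤ x ∧ q.Prime ∧ ¬ P q}.ncard : ℝ) ≤ K * x / (Real.log x) ^ 2 := by
  classical
  obtain ⟨K, hK, x₀, hx₀⟩ := few_bad_primes c hc
  obtain ⟨x₁, hx₁⟩ := Filter.eventually_atTop.1
    (hE.and (const_small ((q0 : ℝ) + 1) (by positivity)))
  refine ⟨K + 2, by positivity, x₀ + x₁ + 10, fun x hx => ?_⟩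
  have hbad := hx₀ x (by omega)
  obtain ⟨hE1, hq1⟩ := hx₁ x (by omega)
  set Bd : Finset ℕ := (Finset.range (x + 1)).filter (fun q : ℕ => q.Prime ∧
        (orderOf (2 : ZMod q) : ℝ) ≤ c * Real.sqrt (((q : ℝ) + 2) / Real.log ((q : ℝ) + 2)))
    with hBd
  have hfinE : {q : ℕ | q ≤ x ∧ E q}.Finite := (Set.finite_Iic x).subset (fun q hq => hq.1)
  have hsub : {q : ℕ | q ≤ x ∧ q.Prime ∧ ¬ P q} ⊆
      ((Bd ∪ Finset.range q0 : Finset ℕ) : Set ℕ) ∪ {q : ℕ | q ≤ x ∧ E q} := by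
    rintro q ⟨hqx, hqp, hqi⟩
    by_cases hq : q < q0
    · left
      rw [Finset.mem_coe, Finset.mem_union]
      right; exact Finset.mem_range.2 hq
    · by_cases hEq : E q
      · right; exact ⟨hqx, hEq⟩
      · left
        rw [Finset.mem_coe, Finset.mem_union]
        left
        rw [hBd, Finset.mem_filter, Finset.mem_range]
        refine ⟨by omega, hqp, ?_⟩
        by_contra hcon
        push Not at hcon
        exact hqi (hP q (by omega) hqp hcon hEq)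
  have hle : ({q : ℕ | q ≤ x ∧ q.Prime ∧ ¬ P q}.ncard : ℝ) ≤
      (Bd.card : ℝ) + q0 + ({q : ℕ | q ≤ x ∧ E q}.ncard : ℝ) := by
    have h1 := Set.ncard_le_ncard hsub ((Finset.finite_toSet _).union hfinE)
    have h2 := Set.ncard_union_le ((Bd ∪ Finset.range q0 : Finset ℕ) : Set ℕ)
      {q : ℕ | q ≤ x ∧ E q}
    rw [Set.ncard_coe_finset] at h2
    have h3 : (Bd ∪ Finset.range q0).card ≤ Bd.card + q0 := by
      refine (Finset.card_union_le _ _).trans ?_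
      rw [Finset.card_range]
    exact_mod_cast h1.trans (h2.trans (Nat.add_le_add_right h3 _))
  have h4 : (K + 2) * x / (Real.log x) ^ 2 =
      K * x / (Real.log x) ^ 2 + x / (Real.log x) ^ 2 + x / (Real.log x) ^ 2 := by
    ring
  rw [h4]
  linarith

theorem bd_eq (r q : ℕ) :
    5 * Real.sqrt r * Real.sqrt (((q : ℝ) + 2) / Real.log ((q : ℝ) + 2)) = bd r q := rfl

/-- part FIN1 -/
theorem s_FIN1 (h : S_BIG) : S_FIN1 := by
  intro r hr
  obtain ⟨q0, hq0⟩ := h r hr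
  have hr0 : 0 < r := hr.pos
  have hr1 : (0 : ℝ) < r := by exact_mod_cast hr0
  refine count_gen (5 * Real.sqrt r) (by positivity) q0
    (fun q => ∃ h : ℚ[X], Irreducible h ∧ h ∣ Rn (r * q + 2) ∧ r * (q - 1) ≤ h.natDegree)
    (fun _ => False) ?_ (fun q h1 h2 h3 _ => hq0 q h1 h2 h3)
  filter_upwards with x
  simp only [and_false, Set.ofPred_false, Set.ncard_empty, Nat.cast_zero]
  positivity

/-- `C (3x+2)^(5/6)` is small -/
theorem pow_small (C : ℝ) (hC : 0 < C) :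
    ∀ᶠ x : ℕ in Filter.atTop, C * ((3 * x + 2 : ℕ) : ℝ) ^ (5 / 6 : ℝ) ≤ x / (Real.log x) ^ 2 := by
  have h1 : (fun x : ℝ => (Real.log x) ^ 2) =o[Filter.atTop] (fun x : ℝ => x ^ (1 / 6 : ℝ)) := by
    exact (isLittleO_log_rpow_rpow_atTop (s := 1 / 6) 2 (by norm_num)).congr'
      (by filter_upwards with x; norm_cast) (by filter_upwards with x; rfl)
  have h2 := (tendsto_natCast_atTop_atTop (R := ℝ)).eventually
    (h1.bound (show (0 : ℝ) < (C * 5)⁻¹ by positivity))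
  filter_upwards [h2, Filter.eventually_ge_atTop 10] with x hx hx10
  rw [Real.norm_of_nonneg (by positivity), Real.norm_of_nonneg (by positivity)] at hx
  have hx2 : (10 : ℝ) ≤ x := by exact_mod_cast hx10
  have hx0 : (0 : ℝ) < x := by linarith
  have hlx : 0 < Real.log x := Real.log_pos (by linarith)
  rw [le_div_iff₀ (by positivity)]
  have h3 : ((3 * x + 2 : ℕ) : ℝ) ^ (5 / 6 : ℝ) ≤ 5 * (x : ℝ) ^ (5 / 6 : ℝ) := by
    calc ((3 * x + 2 : ℕ) : ℝ) ^ (5 / 6 : ℝ) ≤ (5 * (x : ℝ)) ^ (5 / 6 : ℝ) := by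
          apply Real.rpow_le_rpow (by positivity) _ (by norm_num)
          push_cast
          linarith
      _ = (5 : ℝ) ^ (5 / 6 : ℝ) * (x : ℝ) ^ (5 / 6 : ℝ) :=
          Real.mul_rpow (by norm_num) hx0.le
      _ ≤ 5 * (x : ℝ) ^ (5 / 6 : ℝ) := by
          apply mul_le_mul_of_nonneg_right _ (by positivity)
          calc (5 : ℝ) ^ (5 / 6 : ℝ) ≤ (5 : ℝ) ^ (1 : ℝ) :=
                Real.rpow_le_rpow_of_exponent_le (by norm_num) (by norm_num)
            _ = 5 := Real.rpow_one 5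
  calc C * ((3 * x + 2 : ℕ) : ℝ) ^ (5 / 6 : ℝ) * (Real.log x) ^ 2
      ≤ C * (5 * (x : ℝ) ^ (5 / 6 : ℝ)) * ((C * 5)⁻¹ * (x : ℝ) ^ (1 / 6 : ℝ)) := by
        apply mul_le_mul (mul_le_mul_of_nonneg_left h3 hC.le) hx (by positivity) (by positivity)
    _ = ((x : ℝ) ^ (5 / 6 : ℝ) * (x : ℝ) ^ (1 / 6 : ℝ)) * ((C * 5) * (C * 5)⁻¹) := by ring
    _ = x := by
        rw [← Real.rpow_add hx0, mul_inv_cancel₀ (by positivity)]
        norm_num

/-- part FIN2 -/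
theorem s_FIN2 (h : S_IRR) (hb : S_BAD) : S_FIN2 := by
  obtain ⟨q0, hq0⟩ := h
  obtain ⟨C, hC, hCb⟩ := hb
  have key := count_gen (5 * Real.sqrt (3 : ℕ)) (by positivity) q0
    (fun q => (q % 8 = 1 ∨ q % 8 = 7) → Irreducible (Rn (3 * q + 2)))
    (fun q => ∃ Y : ℤ, ¬ (3 : ℤ) ∣ Y ∧ Rel (3 * q + 2) Y) ?_
    (fun q h1 h2 h3 h4 h5 => hq0 q h1 h2 h5 h3 (fun Y hY hR => h4 ⟨Y, hY, hR⟩))
  · obtain ⟨K, hK, x₀, hx₀⟩ := key
    refine ⟨K, hK, x₀, fun x hx => ?_⟩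
    have h1 := hx₀ x hx
    have h2 : {q : ℕ | q ≤ x ∧ q.Prime ∧ (q % 8 = 1 ∨ q % 8 = 7) ∧
        ¬ Irreducible (Rn (3 * q + 2))} = {q : ℕ | q ≤ x ∧ q.Prime ∧
        ¬ ((q % 8 = 1 ∨ q % 8 = 7) → Irreducible (Rn (3 * q + 2)))} := by
      ext q
      simp only [Set.mem_ofPred_eq, Classical.not_imp]
    rw [h2]
    exact h1
  · filter_upwards [pow_small C hC] with x hx
    refine le_trans ?_ hx
    refine le_trans ?_ (hCb (3 * x + 2) (by omega))
    have hfin : Finite {n : ℕ // n ≤ 3 * x + 2 ∧ n % 3 = 2 ∧ ∃ Y : ℤ, ¬ (3 : ℤ) ∣ Y ∧ Rel n Y} :=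
      ((Set.finite_Iic (3 * x + 2)).subset (fun n hn => hn.1)).to_subtype
    have h3 : {q : ℕ | q ≤ x ∧ ∃ Y : ℤ, ¬ (3 : ℤ) ∣ Y ∧ Rel (3 * q + 2) Y}.ncard ≤
        Nat.card {n : ℕ // n ≤ 3 * x + 2 ∧ n % 3 = 2 ∧ ∃ Y : ℤ, ¬ (3 : ℤ) ∣ Y ∧ Rel n Y} := by
      rw [← Nat.card_coe_set_eq]
      refine Nat.card_le_card_of_injective
        (fun q => ⟨3 * q.1 + 2, by have := q.2.1; omega, by omega, q.2.2⟩) ?_
      intro a b hab
      have h4 : 3 * a.1 + 2 = 3 * b.1 + 2 := congrArg Subtype.val hab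
      exact Subtype.ext (by omega)
    exact_mod_cast h3

end Pool.Agent.L7h40.BO
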