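import Pool.Agent.L7h34.BO.StmQ

set_option autoImplicit false

/-!
# Project BO, part FINQ: counting the odd n with a quadratic factor
-/

namespace Pool.Agent.L7h40.BO

open Finset Polynomial Pool.Agent.H319B Pool.Agent.L7h58.BP Pool.Agent.L7h34.BO

/-- a monic quadratic polynomial symmetric under `X ↦ 1 - X` -/
theorem sym_monic (f : ℚ[X]) (hm : f.Monic) (hf : f.natDegree = 2) (hs : f.comp (1 - X) = f) :
    f = X ^ 2 - X + C (f.coeff 0) := by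
  have h1 : f = C (f.coeff 2) * X ^ 2 + C (f.coeff 1) * X + C (f.coeff 0) := by
    conv_lhs => rw [f.as_sum_range_C_mul_X_pow, hf]
    rw [Finset.sum_range_succ, Finset.sum_range_succ, Finset.sum_range_succ, Finset.sum_range_zero]
    simp only [pow_zero, pow_one, mul_one, zero_add]
    ring
  have ha : f.coeff 2 = 1 := by
    rw [← hf]
    exact hm
  have hb : f.coeff 1 = - 1 := by
    have h2 : f.eval 1 = f.eval 0 := by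
      conv_rhs => rw [← hs]
      simp [eval_comp]
    rw [h1] at h2
    simp at h2
    linarith
  conv_lhs => rw [h1, ha, hb]
  simp only [map_one, map_neg]
  ring

/-- part FINQ -/
theorem s_FINQ (hq : S_QUA) (hp : S_POLG) (hc : S_CENO) (hb : S_BAD) : S_FINQ := by
  obtain ⟨C0, hC, hCb⟩ := hb
  refine ⟨C0, hC, fun N hN => le_trans ?_ (hCb N hN)⟩
  have hfin : {n : ℕ | n ≤ N ∧ n % 3 = 2 ∧ ∃ Y : ℤ, ¬ (3 : ℤ) ∣ Y ∧ Rel n Y}.Finite :=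
    (Set.finite_Iic N).subset (fun n hn => hn.1)
  have h1 : Nat.card {n : ℕ // n ≤ N ∧ n % 3 = 2 ∧ ∃ Y : ℤ, ¬ (3 : ℤ) ∣ Y ∧ Rel n Y} =
      {n : ℕ | n ≤ N ∧ n % 3 = 2 ∧ ∃ Y : ℤ, ¬ (3 : ℤ) ∣ Y ∧ Rel n Y}.ncard := rfl
  rw [h1]
  have h2 : {n : ℕ | n ≤ N ∧ Odd n ∧ 5 ≤ n ∧ ∃ g : ℚ[X], g.Monic ∧ g ∣ Rn n ∧ g.natDegree = 2 ∧
      ¬ (n % 3 = 2 ∧ (n % 8 = 1 ∨ n % 8 = 3) ∧ ∃ c : ℤ, g = X ^ 2 - X + C (c : ℚ))} ⊆
      {n : ℕ | n ≤ N ∧ n % 3 = 2 ∧ ∃ Y : ℤ, ¬ (3 : ℤ) ∣ Y ∧ Rel n Y} := by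
    rintro n ⟨hnN, hno, hn5, g, hgm, hgd, hg2, hnot⟩
    obtain ⟨h3, hsym⟩ := hq n hn5 hno g hgm hgd hg2
    have hgs := sym_monic g hgm hg2 hsym
    rw [hgs] at hgd
    refine ⟨hnN, h3, ?_⟩
    rcases hp n hn5 hno h3 _ hgd with ⟨Y, hY, hYd⟩ | ⟨h8, b, hb⟩
    · refine ⟨Y, hY, hc n Y hno (by omega) ?_ hYd⟩
      rintro rfl
      exact hY (dvd_zero _)
    · exfalso
      apply hnot
      refine ⟨h3, h8, b, ?_⟩
      rw [← hb]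
      exact hgs
  exact_mod_cast Set.ncard_le_ncard h2 hfin

end Pool.Agent.L7h40.BO
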